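import Mathlib

/-!
Discrete certificate for half-convex disks (MP_fa9b59_co), part 1: basic inequalities.
`a` convex nondecreasing, `b` concave nonincreasing on `0..N`.
-/

set_option autoImplicit false

namespace FA14

/-- first part of the tile weight -/
noncomputable def PP (a b : ℕ → ℝ) (h k : ℕ) : ℝ := (k : ℝ) * (b k - a (h + k))
/-- second part of the tile weight -/
noncomputable def QQ (a b : ℕ → ℝ) (h k : ℕ) : ℝ := (h : ℝ) * (b (h + k) - a h)
/-- minus the increment of `PP` in `h` -/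
noncomputable def pp (a : ℕ → ℝ) (h k : ℕ) : ℝ := (k : ℝ) * (a (h + k + 1) - a (h + k))
/-- the increment of `QQ` in `h` -/
noncomputable def qq (a b : ℕ → ℝ) (h k : ℕ) : ℝ :=
  ((h : ℝ) + 1) * (b (h + k + 1) - a (h + 1)) - (h : ℝ) * (b (h + k) - a h)

/-- half-convex data -/
structure HC (N : ℕ) (a b : ℕ → ℝ) : Prop where
  a0 : ∀ i, i < N → 0 ≤ a (i + 1) - a i
  a1 : ∀ i j, i ≤ j → j < N → a (i + 1) - a i ≤ a (j + 1) - a j
  b0 : ∀ i, i < N → 0 ≤ b i - b (i + 1)
  b1 : ∀ i j, i ≤ j → j < N → b i - b (i + 1) ≤ b j - b (j + 1)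

/-- the crossing values -/
structure HL (N : ℕ) (a b l : ℕ → ℝ) : Prop where
  up : ∀ h k, h + k < N → l h ≤ pp a h k ∨ l h ≤ qq a b h k
  at' : ∀ h, h < N → ∃ k, h + k < N ∧ pp a h k ≤ l h ∧ qq a b h k ≤ l h

variable {N : ℕ} {a b l : ℕ → ℝ}

theorem HC.a_mono (H : HC N a b) {i j : ℕ} (hij : i ≤ j) (hj : j ≤ N) : a i ≤ a j := by
  induction j, hij using Nat.le_induction with
  | base => exact le_refl _
  | succ j hij ih =>
    have h1 := ih (by omega)
    have h2 := H.a0 j (by omega)
    linarith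

theorem HC.b_mono (H : HC N a b) {i j : ℕ} (hij : i ≤ j) (hj : j ≤ N) : b j ≤ b i := by
  induction j, hij using Nat.le_induction with
  | base => exact le_refl _
  | succ j hij ih =>
    have h1 := ih (by omega)
    have h2 := H.b0 j (by omega)
    linarith

theorem HC.a_supp (H : HC N a b) {i j : ℕ} (hij : i ≤ j) (hj : j ≤ N) (hi : i < N) :
    ((j : ℝ) - i) * (a (i + 1) - a i) ≤ a j - a i := by
  induction j, hij using Nat.le_induction with
  | base => simp
  | succ j hij ih =>
    have h1 := ih (by omega)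
    have h2 := H.a1 i j hij (by omega)
    push_cast
    nlinarith

theorem HC.b_supp (H : HC N a b) {i j : ℕ} (hij : i ≤ j) (hj : j ≤ N) (hi : i < N) :
    ((j : ℝ) - i) * (b i - b (i + 1)) ≤ b i - b j := by
  induction j, hij using Nat.le_induction with
  | base => simp
  | succ j hij ih =>
    have h1 := ih (by omega)
    have h2 := H.b1 i j hij (by omega)
    push_cast
    nlinarith

theorem HC.b_supp' (H : HC N a b) {i j : ℕ} (hij : i ≤ j) (hj : j < N) :
    b i - b j ≤ ((j : ℝ) - i) * (b j - b (j + 1)) := by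
  induction j, hij using Nat.le_induction with
  | base => simp
  | succ j hij ih =>
    have h1 := ih (by omega)
    have h2 := H.b1 j (j + 1) (by omega) (by omega)
    have h3 : (0 : ℝ) ≤ (j : ℝ) - i := by
      have : (i : ℝ) ≤ j := by exact_mod_cast hij
      linarith
    have h4 := mul_le_mul_of_nonneg_left h2 h3
    push_cast
    nlinarith

/-- the concavity inequality of the exchange step -/
theorem HC.b_exch (H : HC N a b) {h y n : ℕ} (hy : h ≤ y) (hn : y ≤ n) (hN : n ≤ N) :
    (h : ℝ) * (b (n - y) - b n) ≤ (y : ℝ) * (b (n - h) - b n) := by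
  rcases Nat.eq_zero_or_pos h with h0 | h0
  · subst h0; simp
  have hX := H.b_supp (i := n - h) (j := n) (by omega) hN (by omega)
  have hY := H.b_supp' (i := n - y) (j := n - h) (by omega) (by omega)
  rw [Nat.cast_sub (by omega)] at hX
  rw [Nat.cast_sub (by omega), Nat.cast_sub (by omega)] at hY
  have hb : (0 : ℝ) ≤ (h : ℝ) := Nat.cast_nonneg h
  have hyh : (0 : ℝ) ≤ (y : ℝ) - h := by
    have : (h : ℝ) ≤ y := by exact_mod_cast hy
    linarith
  have h1 := mul_le_mul_of_nonneg_left hX hyh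
  have h2 := mul_le_mul_of_nonneg_left hY hb
  generalize b (n - h) - b (n - h + 1) = β at *
  nlinarith

theorem HC.pp_nonneg (H : HC N a b) {h k : ℕ} (hk : h + k < N) : 0 ≤ pp a h k := by
  unfold pp
  exact mul_nonneg (Nat.cast_nonneg _) (H.a0 _ hk)

theorem HC.pp_mono_right (H : HC N a b) {h k k' : ℕ} (hkk : k ≤ k') (hk : h + k' < N) :
    pp a h k ≤ pp a h k' := by
  unfold pp
  have h1 := H.a1 (h + k) (h + k') (by omega) hk
  have h0 := H.a0 (h + k) (by omega)
  have h2 : (k : ℝ) ≤ k' := by exact_mod_cast hkk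
  exact mul_le_mul h2 h1 h0 (Nat.cast_nonneg _)

theorem HC.pp_mono_left (H : HC N a b) {h h' k : ℕ} (hh : h ≤ h') (hk : h' + k < N) :
    pp a h k ≤ pp a h' k := by
  unfold pp
  have h1 := H.a1 (h + k) (h' + k) (by omega) hk
  exact mul_le_mul_of_nonneg_left h1 (Nat.cast_nonneg _)

theorem qq_eq (h k : ℕ) : qq a b h k =
    b (h + k + 1) - (h : ℝ) * (b (h + k) - b (h + k + 1)) - (a (h + 1) + (h : ℝ) * (a (h + 1) - a h)) := by
  unfold qq; ring

theorem HC.qq_anti_right (H : HC N a b) {h k k' : ℕ} (hkk : k ≤ k') (hk : h + k' < N) :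
    qq a b h k' ≤ qq a b h k := by
  rw [qq_eq, qq_eq]
  have h1 := H.b1 (h + k) (h + k') (by omega) hk
  have h2 := H.b_mono (i := h + k + 1) (j := h + k' + 1) (by omega) (by omega)
  have h3 := mul_le_mul_of_nonneg_left h1 (Nat.cast_nonneg (α := ℝ) h)
  linarith

theorem exists_l (N : ℕ) (a b : ℕ → ℝ) : ∃ l, HL N a b l := by
  have : ∀ h, ∃ x : ℝ, (∀ k, h + k < N → x ≤ pp a h k ∨ x ≤ qq a b h k) ∧
      (h < N → ∃ k, h + k < N ∧ pp a h k ≤ x ∧ qq a b h k ≤ x) := by
    intro h
    by_cases hN : h < N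
    · obtain ⟨κ, hκ, hmin⟩ := Finset.exists_min_image (Finset.range (N - h))
        (fun k => max (pp a h k) (qq a b h k)) ⟨0, by simp; omega⟩
      refine ⟨max (pp a h κ) (qq a b h κ), ?_, ?_⟩
      · intro k hk
        have := hmin k (by simp; omega)
        exact le_max_iff.mp this
      · intro _
        refine ⟨κ, ?_, le_max_left _ _, le_max_right _ _⟩
        have := Finset.mem_range.mp hκ
        omega
    · exact ⟨0, fun k hk => by omega, fun h' => absurd h' hN⟩
  choose l hl using this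
  exact ⟨l, ⟨fun h k hk => (hl h).1 k hk, fun h hh => (hl h).2 hh⟩⟩

theorem HL.nonneg (H : HC N a b) (L : HL N a b l) {h : ℕ} (hh : h < N) : 0 ≤ l h := by
  obtain ⟨k, hk, h1, -⟩ := L.at' h hh
  exact le_trans (H.pp_nonneg hk) h1

theorem HL.low (H : HC N a b) (L : HL N a b l) {h k : ℕ} (hh : h + k < N) :
    pp a h k ≤ l h ∨ qq a b h k ≤ l h := by
  obtain ⟨κ, hκ, h1, h2⟩ := L.at' h (by omega)
  rcases le_total k κ with hk | hk
  · left; exact le_trans (H.pp_mono_right hk hκ) h1
  · right; exact le_trans (H.qq_anti_right hk hh) h2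

/-- branching estimate -/
theorem HL.branch (H : HC N a b) (L : HL N a b l) {h T : ℕ} (hT : h ≤ T) (hN : T < N) :
    l T = 0 ∨ ((T : ℝ) - h) * (a (T + 1) - a T) ≤ l h - l T := by
  obtain ⟨κ, hκ, h1, h2⟩ := L.at' h (by omega)
  have hhT : (0 : ℝ) ≤ (T : ℝ) - h := by
    have : (h : ℝ) ≤ T := by exact_mod_cast hT
    linarith
  have key : ∀ τ, T ≤ τ → τ < N → qq a b h (τ - h) ≤ l h →
      l T ≤ qq a b T (τ - T) → ((T : ℝ) - h) * (a (T + 1) - a T) ≤ l h - l T := by
    intro τ hτ hτN e1 e2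
    rw [qq_eq] at e1 e2
    rw [show h + (τ - h) = τ by omega] at e1
    rw [show T + (τ - T) = τ by omega] at e2
    have e3 := H.b0 τ hτN
    have e4 := H.a_mono (i := h + 1) (j := T + 1) (by omega) (by omega)
    have e5 := H.a1 h T hT hN
    have e6 := mul_nonneg hhT e3
    have e7 := mul_le_mul_of_nonneg_left e5 (Nat.cast_nonneg (α := ℝ) h)
    nlinarith
  rcases le_total T (h + κ) with hc | hc
  · rcases L.up T (h + κ - T) (by omega) with hu | hu
    · right
      unfold pp at hu h1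
      rw [show T + (h + κ - T) = h + κ by omega, Nat.cast_sub hc] at hu
      push_cast at hu
      have e5 := H.a1 T (h + κ) hc hκ
      have e6 := mul_le_mul_of_nonneg_left e5 hhT
      nlinarith
    · right
      exact key (h + κ) hc hκ (by rw [show h + κ - h = κ by omega]; exact h2) hu
  · rcases L.up T 0 (by omega) with hu | hu
    · left
      unfold pp at hu
      have := L.nonneg H hN
      simp at hu
      linarith
    · right
      refine key T (le_refl _) hN ?_ (by simpa using hu)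
      exact le_trans (H.qq_anti_right (by omega) (by omega)) h2

theorem HL.anti (H : HC N a b) (L : HL N a b l) {h T : ℕ} (hT : h ≤ T) (hN : T < N) :
    l T ≤ l h := by
  rcases L.branch H hT hN with h0 | h0
  · rw [h0]; exact L.nonneg H (by omega)
  · have hhT : (0 : ℝ) ≤ (T : ℝ) - h := by
      have : (h : ℝ) ≤ T := by exact_mod_cast hT
      linarith
    have := mul_nonneg hhT (H.a0 T hN)
    linarith

/-- the key comparison of the monotonicity estimate -/
theorem HL.key (H : HC N a b) (L : HL N a b l) {y h k : ℕ} (hy : y ≤ h)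
    (hN : y + (h + k) < N) {M : ℝ} (hM : l y ≤ M) (hM' : pp a y (h + k) ≤ M) :
    l h + (a (h + 1) + (h : ℝ) * (a (h + 1) - a h)) ≤
      M + a (y + (h + k) + 1) := by
  obtain ⟨κ0, hκ0, h1, h2⟩ := L.at' y (by omega)
  have hyh : (0 : ℝ) ≤ (h : ℝ) - y := by
    have : (y : ℝ) ≤ h := by exact_mod_cast hy
    linarith
  -- choose the comparison index
  obtain ⟨κ, hκ1, hκ2, hp, hq⟩ : ∃ κ, h + k ≤ κ ∧ y + κ < N ∧ pp a y κ ≤ M ∧ qq a b y κ ≤ M := by
    rcases le_total κ0 (h + k) with hc | hc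
    · exact ⟨h + k, le_refl _, hN, hM', le_trans (H.qq_anti_right hc hN) (le_trans h2 hM)⟩
    · exact ⟨κ0, hc, hκ0, le_trans h1 hM, le_trans h2 hM⟩
  have hτ : h ≤ y + κ := by omega
  have f1 := H.a_supp (i := h) (j := y + (h + k) + 1) (by omega) (by omega) (by omega)
  have f2 := H.a_supp (i := y) (j := y + (h + k) + 1) (by omega) (by omega) (by omega)
  push_cast at f1 f2
  have ky : (0 : ℝ) ≤ (y : ℝ) := Nat.cast_nonneg _
  have kk : (0 : ℝ) ≤ (k : ℝ) := Nat.cast_nonneg _
  rcases L.up h (y + κ - h) (by omega) with hu | hu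
  · unfold pp at hu hp
    rw [show h + (y + κ - h) = y + κ by omega, Nat.cast_sub hτ] at hu
    push_cast at hu
    have e5 := H.a1 h (y + κ) hτ hκ2
    have e6 := mul_le_mul_of_nonneg_left e5 hyh
    have e7 := H.a0 h (by omega)
    have e8 := mul_nonneg (add_nonneg ky kk) e7
    have e9 := mul_nonneg kk e7
    nlinarith
  · rw [qq_eq] at hu hq
    rw [show h + (y + κ - h) = y + κ by omega] at hu
    have e3 := H.b0 (y + κ) hκ2
    have e6 := mul_nonneg hyh e3
    have e7 := H.a0 y (by omega)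
    have e9 := mul_nonneg kk e7
    have e10 := mul_nonneg hyh e7
    nlinarith

end FA14
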