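import Pool.Agent.W_fa9b59_d14.Cert1

/-!
Discrete certificate for half-convex disks (MP_fa9b59_co), part 2: the theorem.
-/

set_option autoImplicit false

namespace FA14

open Finset

variable {N : ℕ} {a b l : ℕ → ℝ}

noncomputable def lam (N : ℕ) (l : ℕ → ℝ) (h : ℕ) : ℝ := ∑ i ∈ Finset.Ico h N, l i

theorem lam_top : lam N l N = 0 := by simp [lam]

theorem lam_succ {h : ℕ} (hh : h < N) : lam N l h = l h + lam N l (h + 1) := by
  unfold lam
  rw [Finset.sum_eq_sum_Ico_succ_bot hh]

noncomputable def GG (N : ℕ) (a b l : ℕ → ℝ) (k h : ℕ) : ℝ := PP a b h k - lam N l h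
noncomputable def FF (N : ℕ) (a b l : ℕ → ℝ) (k h : ℕ) : ℝ := QQ a b h k + lam N l h

theorem GG_succ {h k : ℕ} (hh : h + k < N) :
    GG N a b l k (h + 1) - GG N a b l k h = l h - pp a h k := by
  unfold GG PP pp
  rw [lam_succ (show h < N by omega), show h + 1 + k = h + k + 1 by ring]
  ring

theorem FF_succ {h k : ℕ} (hh : h + k < N) :
    FF N a b l k (h + 1) - FF N a b l k h = qq a b h k - l h := by
  unfold FF QQ qq
  rw [lam_succ (show h < N by omega), show h + 1 + k = h + k + 1 by ring]
  push_cast
  ring

/-- increments of `G` are nonincreasing in both indices -/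
theorem HL.g_anti (H : HC N a b) (L : HL N a b l) {h k h' k' : ℕ} (hh : h ≤ h') (hk : k ≤ k')
    (hN : h' + k' < N) : l h' - pp a h' k' ≤ l h - pp a h k := by
  have h1 := L.anti H hh (by omega)
  have h2 := H.pp_mono_left hh (show h' + k < N by omega)
  have h3 := H.pp_mono_right hk hN
  linarith

/-- common maximiser inequality -/
theorem HL.cm (H : HC N a b) (L : HL N a b l) {s : ℝ}
    (hs : ∀ h k, h + k ≤ N → PP a b h k + QQ a b h k ≤ s) (k : ℕ) :
    ∀ n i j : ℕ, i + k ≤ N → j + k ≤ N → (i - j) + (j - i) = n →
      GG N a b l k i + FF N a b l k j ≤ s := by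
  intro n
  induction n with
  | zero =>
    intro i j hi hj hn
    have : i = j := by omega
    subst this
    have := hs i k hi
    unfold GG FF
    linarith
  | succ n ih =>
    intro i j hi hj hn
    rcases lt_trichotomy i j with hij | hij | hij
    · -- i < j
      by_cases hg : 0 ≤ l i - pp a i k
      · have e1 := GG_succ (a := a) (b := b) (l := l) (show i + k < N by omega)
        have e2 := ih (i + 1) j (by omega) hj (by omega)
        linarith
      · push Not at hg
        obtain ⟨m, rfl⟩ : ∃ m, j = m + 1 := ⟨j - 1, by omega⟩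
        have e0 := L.g_anti H (h := i) (h' := m) (k := k) (k' := k) (by omega) (le_refl _) (by omega)
        have e1 := FF_succ (a := a) (b := b) (l := l) (show m + k < N by omega)
        have e2 := ih i m hi (by omega) (by omega)
        rcases L.low H (h := m) (k := k) (by omega) with e3 | e3
        · linarith
        · linarith
    · omega
    · -- j < i
      obtain ⟨m, rfl⟩ : ∃ m, i = m + 1 := ⟨i - 1, by omega⟩
      by_cases hg : l m - pp a m k ≤ 0
      · have e1 := GG_succ (a := a) (b := b) (l := l) (show m + k < N by omega)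
        have e2 := ih m j (by omega) hj (by omega)
        linarith
      · push Not at hg
        have e0 := L.g_anti H (h := j) (h' := m) (k := k) (k' := k) (by omega) (le_refl _) (by omega)
        have e1 := FF_succ (a := a) (b := b) (l := l) (show j + k < N by omega)
        have e2 := ih (m + 1) (j + 1) hi (by omega) (by omega)
        rcases L.up j k (by omega) with e3 | e3
        · linarith
        · linarith

theorem lam_zero_of (H : HC N a b) (L : HL N a b l) {T : ℕ} (hT : T < N) (h0 : l T = 0) :
    lam N l T = 0 := by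
  unfold lam
  apply Finset.sum_eq_zero
  intro i hi
  rw [Finset.mem_Ico] at hi
  have h1 := L.anti H hi.1 hi.2
  have h2 := L.nonneg H hi.2
  linarith

theorem lam_nonneg (H : HC N a b) (L : HL N a b l) (T : ℕ) : 0 ≤ lam N l T := by
  unfold lam
  apply Finset.sum_nonneg
  intro i hi
  rw [Finset.mem_Ico] at hi
  exact L.nonneg H hi.2

theorem lam_anti (H : HC N a b) (L : HL N a b l) {h T : ℕ} (hT : h ≤ T) (hN : T ≤ N) :
    lam N l T ≤ lam N l h := by
  induction T, hT using Nat.le_induction with
  | base => exact le_refl _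
  | succ T hT ih =>
    have h1 := ih (by omega)
    have h2 := lam_succ (N := N) (l := l) (show T < N by omega)
    have h3 := L.nonneg H (show T < N by omega)
    linarith

/-- inequality (A): the branching term can be dropped at the maximum -/
theorem HL.brA (H : HC N a b) (L : HL N a b l) {k : ℕ} {D : ℝ}
    (hD : ∀ h, h + k ≤ N → GG N a b l k h ≤ D) :
    ∀ n h, h + k + n = N → GG N a b l k h + lam N l (h + k) ≤ D := by
  intro n
  induction n with
  | zero =>
    intro h hh
    have : h + k = N := by omega
    rw [this, lam_top]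
    have := hD h (by omega)
    linarith
  | succ n ih =>
    intro h hh
    rcases L.branch H (h := h) (T := h + k) (by omega) (by omega) with h0 | h0
    · rw [lam_zero_of H L (by omega) h0]
      have := hD h (by omega)
      linarith
    · have e1 := ih (h + 1) (by omega)
      have e2 := GG_succ (a := a) (b := b) (l := l) (show h + k < N by omega)
      have e3 : lam N l (h + k) = l (h + k) + lam N l (h + k + 1) := lam_succ (by omega)
      rw [show h + 1 + k = h + k + 1 by ring] at e1
      have e4 : pp a h k = (((h + k : ℕ) : ℝ) - h) * (a (h + k + 1) - a (h + k)) := by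
        unfold pp; push_cast; ring
      linarith

/-- monotonicity estimate, one step -/
theorem HL.step (H : HC N a b) (L : HL N a b l) {D : ℕ → ℝ}
    (hD : ∀ h k, h + k ≤ N → GG N a b l k h ≤ D k) {y h k : ℕ} (hy : y ≤ h)
    (hN : y + (h + k + 1) ≤ N) (hyD : GG N a b l (h + k + 1) y = D (h + k + 1))
    (hk : h + k < N) :
    D (h + k + 1) - D (h + k) ≤ FF N a b l k (h + 1) - FF N a b l k h := by
  have e1 := hD y (h + k) (by omega)
  have e2 := hD (y + 1) (h + k) (by omega)
  have e3 := GG_succ (N := N) (a := a) (b := b) (l := l) (h := y) (k := h + k) (by omega)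
  have e4 := FF_succ (a := a) (b := b) (l := l) hk
  have e5 : GG N a b l (h + k + 1) y - GG N a b l (h + k) (y + 1) =
      ((h + k : ℕ) + 1 : ℝ) * b (h + k + 1) - ((h + k : ℕ) : ℝ) * b (h + k) - a (y + (h + k) + 1) - l y := by
    unfold GG PP
    rw [lam_succ (show y < N by omega), show y + 1 + (h + k) = y + (h + k) + 1 by ring,
      show y + (h + k + 1) = y + (h + k) + 1 by ring]
    push_cast
    ring
  -- M = max (l y) (pp)
  have e6 := L.key H (y := y) (h := h) (k := k) hy (by omega) (M := max (l y) (pp a y (h + k)))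
    (le_max_left _ _) (le_max_right _ _)
  have e7 : max (l y) (pp a y (h + k)) ≤ ((h + k : ℕ) + 1 : ℝ) * b (h + k + 1)
      - ((h + k : ℕ) : ℝ) * b (h + k) - a (y + (h + k) + 1) - (D (h + k + 1) - D (h + k)) := by
    apply max_le
    · linarith
    · linarith
  rw [e4, qq_eq]
  have e8 := H.b0 (h + k) hk
  have e9 : (0 : ℝ) ≤ k * (b (h + k) - b (h + k + 1)) := mul_nonneg (Nat.cast_nonneg _) e8
  push_cast at e7
  nlinarith

/-- monotonicity estimate, summed -/
theorem HL.steps (H : HC N a b) (L : HL N a b l) {D : ℕ → ℝ} {ι : ℕ → ℕ}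
    (hD : ∀ h k, h + k ≤ N → GG N a b l k h ≤ D k)
    (hι : ∀ k, k ≤ N → ι k + k ≤ N ∧ GG N a b l k (ι k) = D k)
    (hιa : ∀ k k', k ≤ k' → k' ≤ N → ι k' ≤ ι k) {h k : ℕ} :
    ∀ m, h + k + m ≤ N → (m = 0 ∨ ι (h + k + 1) ≤ h) →
      D (h + k + m) - D (h + k) ≤ FF N a b l k (h + m) - FF N a b l k h := by
  intro m
  induction m with
  | zero => intro _ _; simp
  | succ m ih =>
    intro hm hc
    have hc' : ι (h + k + 1) ≤ h := by
      rcases hc with hc | hc
      · omega
      · exact hc
    have e1 := ih (by omega) (Or.inr hc')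
    have e2 := hι (h + m + k + 1) (by omega)
    have e3 := hιa (h + k + 1) (h + m + k + 1) (by omega) (by omega)
    have e4 := L.step H hD (y := ι (h + m + k + 1)) (h := h + m) (k := k) (by omega) (by omega)
      e2.2 (by omega)
    rw [show h + k + (m + 1) = h + m + k + 1 by ring, show h + (m + 1) = h + m + 1 by ring]
    rw [show h + k + m = h + m + k by ring] at e1
    linarith

/-- smallest maximisers of `G` -/
theorem exists_iota (H : HC N a b) (L : HL N a b l) : ∃ ι : ℕ → ℕ,
    (∀ k, k ≤ N → ι k + k ≤ N ∧ (∀ h, h + k ≤ N → GG N a b l k h ≤ GG N a b l k (ι k)) ∧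
      (∀ h, h < ι k → 0 < l h - pp a h k)) ∧
    (∀ k k', k ≤ k' → k' ≤ N → ι k' ≤ ι k) := by
  classical
  have h1 : ∀ k, ∃ i, k ≤ N → (i + k ≤ N ∧ ∀ h, h + k ≤ N → GG N a b l k h ≤ GG N a b l k i) ∧
      (∀ j, j < i → ¬ (j + k ≤ N ∧ ∀ h, h + k ≤ N → GG N a b l k h ≤ GG N a b l k j)) := by
    intro k
    by_cases hk : k ≤ N
    · have ex : ∃ i, i + k ≤ N ∧ ∀ h, h + k ≤ N → GG N a b l k h ≤ GG N a b l k i := by
        obtain ⟨i, hi, hmax⟩ := Finset.exists_max_image (Finset.range (N - k + 1))
          (fun h => GG N a b l k h) ⟨0, by simp⟩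
        rw [Finset.mem_range] at hi
        exact ⟨i, by omega, fun h hh => hmax h (by rw [Finset.mem_range]; omega)⟩
      exact ⟨Nat.find ex, fun _ => ⟨Nat.find_spec ex, fun j hj => Nat.find_min ex hj⟩⟩
    · exact ⟨0, fun h => absurd h hk⟩
  choose ι hι using h1
  have pos : ∀ k, k ≤ N → ∀ h, h < ι k → 0 < l h - pp a h k := by
    intro k hk h hh
    obtain ⟨⟨e1, e2⟩, e3⟩ := hι k hk
    obtain ⟨m, hm⟩ : ∃ m, ι k = m + 1 := ⟨ι k - 1, by omega⟩
    have e4 := e3 m (by omega)
    have e5 : GG N a b l k m < GG N a b l k (m + 1) := by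
      by_contra hcon
      push Not at hcon
      apply e4
      refine ⟨by omega, fun j hj => ?_⟩
      have := e2 j hj
      rw [hm] at this
      linarith
    have e6 := GG_succ (a := a) (b := b) (l := l) (show m + k < N by omega)
    have e7 := L.g_anti H (h := h) (h' := m) (k := k) (k' := k) (by omega) (le_refl _) (by omega)
    linarith
  refine ⟨ι, fun k hk => ⟨(hι k hk).1.1, (hι k hk).1.2, pos k hk⟩, ?_⟩
  intro k k' hkk hk'
  by_contra hcon
  push Not at hcon
  have e1 := hι k' hk'
  have e2 := hι k (by omega)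
  have e3 := pos k' hk' (ι k) hcon
  have e4 := L.g_anti H (h := ι k) (h' := ι k) (k := k) (k' := k') (le_refl _) hkk (by omega)
  have e5 := GG_succ (a := a) (b := b) (l := l) (show ι k + k < N by omega)
  have e6 := e2.1.2 (ι k + 1) (by omega)
  linarith

/-- a maximiser of `F` beyond the smallest maximiser of `G` -/
theorem exists_y (L : HL N a b l) {k i : ℕ} (hi : i + k ≤ N)
    (hpos : ∀ h, h < i → 0 < l h - pp a h k) : ∃ y, y + k ≤ N ∧ i ≤ y ∧
      ∀ h, h + k ≤ N → FF N a b l k h ≤ FF N a b l k y := by
  obtain ⟨y0, hy0, hmax⟩ := Finset.exists_max_image (Finset.range (N - k + 1))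
    (fun h => FF N a b l k h) ⟨0, by simp⟩
  rw [Finset.mem_range] at hy0
  have hmax' : ∀ h, h + k ≤ N → FF N a b l k h ≤ FF N a b l k y0 :=
    fun h hh => hmax h (by rw [Finset.mem_range]; omega)
  rcases le_total i y0 with hc | hc
  · exact ⟨y0, by omega, hc, hmax'⟩
  · refine ⟨i, hi, le_refl _, fun h hh => le_trans (hmax' h hh) ?_⟩
    have mono : ∀ n, y0 + n ≤ i → FF N a b l k y0 ≤ FF N a b l k (y0 + n) := by
      intro n
      induction n with
      | zero => intro _; simp
      | succ n ih =>
        intro hn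
        have e1 := ih (by omega)
        have e2 := FF_succ (a := a) (b := b) (l := l) (show y0 + n + k < N by omega)
        have e3 := hpos (y0 + n) (by omega)
        rcases L.up (y0 + n) k (by omega) with e4 | e4
        · linarith
        · rw [show y0 + (n + 1) = y0 + n + 1 by ring]
          linarith
    have := mono (i - y0) (by omega)
    rwa [show y0 + (i - y0) = i by omega] at this

/-- The discrete certificate. -/
theorem cert (H : HC N a b) {s : ℝ} (hs : ∀ h k, h + k ≤ N → PP a b h k + QQ a b h k ≤ s) :
    ∃ φ γ : ℕ → ℝ,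
      (∀ h k, h + k ≤ N → PP a b h k ≤ φ (h + k) + γ k - φ h) ∧
      (∀ h k, h + k ≤ N → QQ a b h k ≤ γ (h + k) + φ h - γ k) ∧
      (∀ z, z ≤ N → φ z + γ z ≤ s) ∧ (∀ z, z ≤ N → 0 ≤ φ z) ∧ (∀ z, z ≤ N → 0 ≤ γ z) := by
  obtain ⟨l, L⟩ := exists_l N a b
  obtain ⟨ι, hι, hιa⟩ := exists_iota H L
  have hy : ∀ k, ∃ y, k ≤ N → (y + k ≤ N ∧ ι k ≤ y ∧
      ∀ h, h + k ≤ N → FF N a b l k h ≤ FF N a b l k y) := by
    intro k
    by_cases hk : k ≤ N
    · obtain ⟨y, hy⟩ := exists_y L (hι k hk).1 (hι k hk).2.2
      exact ⟨y, fun _ => hy⟩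
    · exact ⟨0, fun h => absurd h hk⟩
  choose Y hY using hy
  -- D, E, c
  obtain ⟨D, hDdef⟩ : ∃ D : ℕ → ℝ, ∀ k, D k = GG N a b l k (ι k) := ⟨_, fun _ => rfl⟩
  obtain ⟨E, hEdef⟩ : ∃ E : ℕ → ℝ, ∀ k, E k = FF N a b l k (Y k) := ⟨_, fun _ => rfl⟩
  have hD : ∀ h k, h + k ≤ N → GG N a b l k h ≤ D k := by
    intro h k hh
    rw [hDdef]
    exact (hι k (by omega)).2.1 h hh
  have hE : ∀ h k, h + k ≤ N → FF N a b l k h ≤ E k := by
    intro h k hh
    rw [hEdef]
    exact (hY k (by omega)).2.2 h hh
  have hDE : ∀ k, k ≤ N → D k + E k ≤ s := by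
    intro k hk
    rw [hDdef, hEdef]
    exact L.cm H hs k _ (ι k) (Y k) (hι k hk).1 (hY k hk).1 rfl
  obtain ⟨k1, hk1, hk1max⟩ := Finset.exists_max_image (Finset.range (N + 1)) D ⟨0, by simp⟩
  rw [Finset.mem_range] at hk1
  have hk1N : k1 ≤ N := by omega
  obtain ⟨c, hc⟩ : ∃ c : ℝ, c = D k1 := ⟨_, rfl⟩
  have hcD : ∀ k, k ≤ N → D k ≤ c := by
    intro k hk
    rw [hc]
    exact hk1max k (by rw [Finset.mem_range]; omega)
  have hcE : c + E k1 ≤ s := by rw [hc]; exact hDE k1 hk1N
  -- E is antitone
  have hEanti : ∀ k k', k ≤ k' → k' ≤ N → E k' ≤ E k := by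
    intro k k' hkk hk'
    have e1 := hE (Y k') k (by have := (hY k' hk').1; omega)
    have e2 : FF N a b l k' (Y k') ≤ FF N a b l k (Y k') := by
      unfold FF QQ
      have e3 := H.b_mono (i := Y k' + k) (j := Y k' + k') (by omega) (hY k' hk').1
      have e4 : (0 : ℝ) ≤ (Y k' : ℝ) := Nat.cast_nonneg _
      nlinarith
    rw [hEdef k']
    linarith
  have hF0 : ∀ k, FF N a b l k 0 = lam N l 0 := by
    intro k; unfold FF QQ; simp
  refine ⟨fun z => s - c - lam N l z, fun z => min c (s - E z), ?_, ?_, ?_, ?_, ?_⟩
  · -- (A)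
    intro h k hh
    have e1 := L.brA H (k := k) (D := D k) (fun h hh => hD h k hh) (N - (h + k)) h (by omega)
    have e2 := hcD k (by omega)
    have e3 := hDE k (by omega)
    have e4 : D k ≤ min c (s - E k) := le_min e2 (by linarith)
    unfold GG at e1
    show PP a b h k ≤ s - c - lam N l (h + k) + min c (s - E k) - (s - c - lam N l h)
    linarith
  · -- (B)
    intro h k hh
    show QQ a b h k ≤ min c (s - E (h + k)) + (s - c - lam N l h) - min c (s - E k)
    have e0 : min c (s - E k) ≤ s - E k := min_le_right _ _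
    have eF := hE h k hh
    rcases le_total c (s - E (h + k)) with hcase | hcase
    · rw [min_eq_left hcase]
      unfold FF at eF
      linarith
    · rw [min_eq_right hcase]
      -- main case
      have goal : E (h + k) + FF N a b l k h ≤ E k + (s - c) := by
        rcases eq_or_lt_of_le hcase with heq | hlt
        · have e1 : FF N a b l k h ≤ E k := eF
          linarith
        -- T < k1
        have hTk : h + k < k1 := by
          by_contra hcon
          push Not at hcon
          have := hEanti k1 (h + k) hcon hh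
          linarith
        have hιD : ∀ k, k ≤ N → ι k + k ≤ N ∧ GG N a b l k (ι k) = D k :=
          fun k hk => ⟨(hι k hk).1, (hDdef k).symm⟩
        obtain ⟨y1, y2, y3⟩ := hY (h + k) hh
        obtain ⟨y, hyy⟩ : ∃ y, y = Y (h + k) := ⟨_, rfl⟩
        rw [← hyy] at y1 y2 y3
        have hEy : E (h + k) = FF N a b l (h + k) y := by rw [hEdef, hyy]
        rcases le_or_gt y h with hyh | hyh
        · -- case 1
          have e1 := L.steps H hD hιD hιa (h := h) (k := k) (k1 - (h + k)) (by omega)
            (Or.inr (le_trans (hιa (h + k) (h + k + 1) (by omega) (by omega)) (by omega)))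
          rw [show h + k + (k1 - (h + k)) = k1 by omega, ← hc] at e1
          have e2 := hE (h + (k1 - (h + k))) k (by omega)
          have e3 := hDE (h + k) hh
          linarith
        · -- case 2
          obtain ⟨V, hV⟩ : ∃ V, V = min (y + k) k1 := ⟨_, rfl⟩
          have hVT : h + k ≤ V := by rw [hV]; exact le_min (by omega) (by omega)
          have hVy : V ≤ y + k := by rw [hV]; exact min_le_left _ _
          have hVN : V ≤ N := by omega
          have s1 : FF N a b l k y + c - D V ≤ E k := by
            rcases le_total (y + k) k1 with hc1 | hc1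
            · have hVe : V = y + k := by rw [hV]; exact min_eq_left hc1
              have e1 := L.steps H hD hιD hιa (h := y) (k := k) (k1 - (y + k)) (by omega)
                (by
                  rcases Nat.eq_zero_or_pos (k1 - (y + k)) with h0 | h0
                  · left; exact h0
                  · right
                    exact le_trans (hιa (h + k) (y + k + 1) (by omega) (by omega)) y2)
              rw [show y + k + (k1 - (y + k)) = k1 by omega, ← hc] at e1
              have e2 := hE (y + (k1 - (y + k))) k (by omega)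
              rw [hVe]
              linarith
            · have hVe : V = k1 := by rw [hV]; exact min_eq_right hc1
              have e2 := hE y k (by omega)
              rw [hVe, ← hc]
              linarith
          have s2 := hDE V hVN
          have s3 := hE h V (by omega)
          -- exchange inequality
          have s4 : FF N a b l (h + k) y + FF N a b l k h ≤ FF N a b l k y + FF N a b l V h := by
            unfold FF QQ
            have x1 := H.b_exch (h := h) (y := y) (n := h + k + y) (by omega) (by omega) (by omega)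
            rw [show h + k + y - y = h + k by omega, show h + k + y - h = y + k by omega] at x1
            have x2 := H.b_mono (i := h + V) (j := h + k + y) (by omega) (by omega)
            have x3 := mul_le_mul_of_nonneg_left x2 (Nat.cast_nonneg (α := ℝ) h)
            rw [show y + (h + k) = h + k + y by ring]
            nlinarith
          rw [hEy]
          linarith
      unfold FF at goal
      linarith
  · -- (C)
    intro z hz
    show s - c - lam N l z + min c (s - E z) ≤ s
    have e1 := lam_nonneg H L z
    have e2 : min c (s - E z) ≤ c := min_le_left _ _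
    linarith
  · intro z hz
    show 0 ≤ s - c - lam N l z
    have e1 := hE 0 k1 (by omega)
    rw [hF0] at e1
    have e2 := lam_anti H L (show 0 ≤ z by omega) hz
    linarith
  · intro z hz
    show 0 ≤ min c (s - E z)
    have g0 : GG N a b l 0 N = 0 := by
      unfold GG PP; rw [lam_top]; simp
    have e1 := hD N 0 (by omega)
    rw [g0] at e1
    have e2 := hcD 0 (by omega)
    have e3 := hDE 0 (by omega)
    have e4 := hEanti 0 z (by omega) hz
    exact le_min (by linarith) (by linarith)

/-- The discrete certificate in the form of proofs row 542 (zero at height zero). -/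
theorem certLP (H : HC N a b) {s : ℝ} (hs : ∀ h k, h + k ≤ N → PP a b h k + QQ a b h k ≤ s) :
    ∃ L P : ℕ → ℝ, L 0 = 0 ∧ P 0 = 0 ∧ (∀ z, z ≤ N → 0 ≤ L z) ∧ (∀ z, z ≤ N → 0 ≤ P z) ∧
      (∀ z, z ≤ N → L z + P z ≤ s) ∧
      (∀ h k, h + k ≤ N → (h : ℝ) * (b (h + k) - a h) ≤ P (h + k) - P k + L h) ∧
      (∀ h k, h + k ≤ N → (k : ℝ) * (b k - a (h + k)) ≤ L (h + k) - L h + P k) := by
  obtain ⟨φ, γ, hA, hB, hC, h1, h2⟩ := cert H hs
  refine ⟨fun z => if z = 0 then 0 else φ z, fun z => if z = 0 then 0 else γ z,
    by simp, by simp, ?_, ?_, ?_, ?_, ?_⟩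
  · intro z hz
    by_cases h0 : z = 0
    · simp [h0]
    · simp only [h0, if_false]; exact h1 z hz
  · intro z hz
    by_cases h0 : z = 0
    · simp [h0]
    · simp only [h0, if_false]; exact h2 z hz
  · intro z hz
    by_cases h0 : z = 0
    · simp only [h0, if_true]
      have e1 := h1 0 (by omega)
      have e2 := h2 0 (by omega)
      have e3 := hC 0 (by omega)
      linarith
    · simp only [h0, if_false]; exact hC z hz
  · intro h k hh
    have e := hB h k hh
    unfold QQ at e
    rcases Nat.eq_zero_or_pos h with rfl | hp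
    · simp
    · rcases Nat.eq_zero_or_pos k with rfl | kp
      · have e3 := h2 0 (by omega)
        beta_reduce
        rw [if_neg (show h + 0 ≠ 0 by omega), if_pos rfl, if_neg (show h ≠ 0 by omega)]
        linarith
      · beta_reduce
        rw [if_neg (show h + k ≠ 0 by omega), if_neg (show k ≠ 0 by omega),
          if_neg (show h ≠ 0 by omega)]
        linarith
  · intro h k hh
    have e := hA h k hh
    unfold PP at e
    rcases Nat.eq_zero_or_pos k with rfl | kp
    · simp
    · rcases Nat.eq_zero_or_pos h with rfl | hp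
      · have e3 := h1 0 (by omega)
        beta_reduce
        rw [if_neg (show 0 + k ≠ 0 by omega), if_pos rfl, if_neg (show k ≠ 0 by omega)]
        linarith
      · beta_reduce
        rw [if_neg (show h + k ≠ 0 by omega), if_neg (show h ≠ 0 by omega),
          if_neg (show k ≠ 0 by omega)]
        linarith

end FA14

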