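import Pool.Agent.W_fa9b59_d14.Dct2

/-!
Discrete covering theorem (MP_fa9b59_co, proofs row 542, section 3): final assembly.
-/

set_option autoImplicit false

namespace FA14

open Finset

variable {N : ℕ}

/-- membership in an owner set in terms of the height -/
theorem Ownf.mem_iff {y : Fin N → ℕ} {Q : ℕ} {f : ℕ → Fin N} (hf : Ownf y Q f) {i : Fin N} {q : ℕ}
    (hq : q < Q) : f q = i ↔ y i ≤ q ∧ q < y i + ht f i Q := by
  constructor
  · intro h
    have e1 := (hf q hq).1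
    rw [h] at e1
    refine ⟨e1, ?_⟩
    have e2 : q + 1 - y i ≤ ht f i Q := by
      unfold ht
      rw [← Nat.card_Ico]
      apply Finset.card_le_card
      intro q' hq'
      rw [Finset.mem_Ico] at hq'
      rw [Finset.mem_filter, Finset.mem_range]
      refine ⟨by omega, ?_⟩
      rw [(hf q hq).2 q' (by rw [h]; exact hq'.1) (by omega), h]
    omega
  · rintro ⟨h1, h2⟩
    by_contra hne
    have e2 : ht f i Q ≤ q - y i := by
      unfold ht
      rw [← Nat.card_Ico]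
      apply Finset.card_le_card
      intro q' hq'
      rw [Finset.mem_filter, Finset.mem_range] at hq'
      obtain ⟨h3, h4⟩ := hq'
      rw [Finset.mem_Ico]
      have e3 := hf q' h3
      rw [h4] at e3
      refine ⟨e3.1, ?_⟩
      by_contra hcon
      push Not at hcon
      exact hne (e3.2 q h1 hcon)
    omega

theorem ht_bound {y : Fin N → ℕ} {Q : ℕ} {f : ℕ → Fin N} {n : ℕ} (hf : Ownf y Q f)
    (h : ∀ q, q < Q → q + 1 - y (f q) ≤ n) (i : Fin N) : ht f i Q ≤ n := by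
  rcases Nat.eq_zero_or_pos (ht f i Q) with h0 | h0
  · omega
  -- the last level owned by i
  have hle := hf.ht_le (i := i) (le_refl Q)
  have hq : y i + ht f i Q - 1 < Q := by omega
  have e := (hf.mem_iff (i := i) hq).mpr ⟨by omega, by omega⟩
  have := h _ hq
  rw [e] at this
  omega

theorem ht_quasi {y : Fin N → ℕ} {Q : ℕ} {f1 f2 f3 : ℕ → Fin N} (h1 : Ownf y Q f1)
    (h3 : Ownf y Q f3) (i : Fin N)
    (h : ∀ q, q < Q → f1 q = i → f3 q = i → f2 q = i) :
    min (ht f1 i Q) (ht f3 i Q) ≤ ht f2 i Q := by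
  rcases le_total (ht f1 i Q) (ht f3 i Q) with hc | hc
  · rw [min_eq_left hc]
    apply Finset.card_le_card
    intro q hq
    rw [Finset.mem_filter, Finset.mem_range] at hq ⊢
    refine ⟨hq.1, h q hq.1 hq.2 ?_⟩
    have e := (h1.mem_iff hq.1).mp hq.2
    exact (h3.mem_iff hq.1).mpr ⟨e.1, by omega⟩
  · rw [min_eq_right hc]
    apply Finset.card_le_card
    intro q hq
    rw [Finset.mem_filter, Finset.mem_range] at hq ⊢
    refine ⟨hq.1, h q hq.1 ?_ hq.2⟩
    have e := (h3.mem_iff hq.1).mp hq.2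
    exact (h1.mem_iff hq.1).mpr ⟨e.1, by omega⟩

/-- The discrete covering theorem. -/
theorem dct {N n G Q : ℕ} {a b : ℕ → ℝ} (H : HC n a b) {s : ℝ}
    (hs : ∀ h k, h + k ≤ n → PP a b h k + QQ a b h k ≤ s)
    (a0 b0 : ℝ) (g : ℝ → ℝ) (hg : ConcaveOn ℝ (Set.Icc a0 b0) g)
    (p : ℕ → ℝ) (hp : Monotone p) (d : ℝ) (hd0 : 0 ≤ d)
    (hd : ∀ m, m < G → p (m + 1) - p m ≤ d)
    (x : Fin N → ℝ) (y : Fin N → ℕ)
    (hA : ∀ u, a0 ≤ u → u ≤ b0 → ∀ t : ℕ, (t : ℝ) ≤ g u → t + 1 ≤ n ∧ a (t + 1) ≤ u ∧ u ≤ b (t + 1))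
    (hcov : ∀ m, m ≤ G → ∀ q, q < Q → ∃ i, a0 ≤ p m - x i ∧ p m - x i ≤ b0 ∧ y i ≤ q ∧
      (q : ℝ) ≤ y i + g (p m - x i)) :
    (Q : ℝ) * (p G - p 0 - (b0 - a0)) ≤ N * (s + d * n) := by
  classical
  have hs0 : 0 ≤ s := by
    have := hs 0 0 (by omega)
    unfold PP QQ at this
    simpa using this
  have hsn : 0 ≤ s + d * n := add_nonneg hs0 (mul_nonneg hd0 (Nat.cast_nonneg _))
  rcases Nat.eq_zero_or_pos Q with rfl | hQ
  · have : (0 : ℝ) ≤ N * (s + d * n) := mul_nonneg (Nat.cast_nonneg _) hsn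
    simpa using this
  obtain ⟨C, hC⟩ : ∃ C : Cfg N, C = ⟨a0, b0, g, p, x⟩ := ⟨_, rfl⟩
  have hcov' : ∀ m, m ≤ G → ∀ q, q < Q → ∃ i, C.cv y m q i := by
    intro m hm q hq
    obtain ⟨i, h1, h2, h3, h4⟩ := hcov m hm q hq
    refine ⟨i, ⟨?_, ?_⟩, h3, ?_⟩
    · rw [hC]; exact h1
    · rw [hC]; exact h2
    · unfold Cfg.top; rw [hC]; exact h4
  obtain ⟨y', hcovy, hW⟩ := Cfg.raise hcov'
  have hgC : ConcaveOn ℝ (Set.Icc C.a0 C.b0) C.g := by rw [hC]; exact hg
  have hpC : Monotone C.p := by rw [hC]; exact hp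
  obtain ⟨i0, -⟩ := hcov 0 (by omega) 0 hQ
  -- owner functions
  have hF : ∀ m q, ∃ i, m ≤ G → q < Q → C.own y' m q i := by
    intro m q
    by_cases hm : m ≤ G ∧ q < Q
    · obtain ⟨i, hi⟩ := hcovy m hm.1 q hm.2
      obtain ⟨j, hj⟩ := Cfg.own_exists (C := C) (y := y') hi.1 hi.2.1
      exact ⟨j, fun _ _ => hj⟩
    · exact ⟨i0, fun h1 h2 => absurd ⟨h1, h2⟩ hm⟩
  choose F hF using hF
  have hown : ∀ m, m ≤ G → Ownf y' Q (F m) := by
    intro m hm q hq
    have e := hF m q hm hq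
    refine ⟨e.2.1, fun q' h1 h2 => ?_⟩
    exact Cfg.own_unique (hF m q' hm (by omega)) (e.mono h1 h2)
  have hcvF : ∀ m, m ≤ G → ∀ q, q < Q → C.cv y' m q (F m q) := by
    intro m hm q hq
    obtain ⟨i, hi⟩ := hcovy m hm q hq
    exact (hF m q hm hq).cv hi
  -- consequences of hA
  have hA' : ∀ m, m ≤ G → ∀ q, q < Q → q + 1 - y' (F m q) ≤ n ∧
      a (q + 1 - y' (F m q)) ≤ p m - x (F m q) ∧ p m - x (F m q) ≤ b (q + 1 - y' (F m q)) := by
    intro m hm q hq
    obtain ⟨⟨h1, h2⟩, h3, h4⟩ := hcvF m hm q hq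
    unfold Cfg.top at h4
    rw [hC] at h1 h2 h4
    simp only at h1 h2 h4
    have e := hA (p m - x (F m q)) h1 h2 (q - y' (F m q)) (by
      rw [Nat.cast_sub h3]; linarith)
    rw [show q - y' (F m q) + 1 = q + 1 - y' (F m q) by omega] at e
    exact e
  -- the certificate with the perturbation d
  obtain ⟨L, P, hL0, hP0, hLn, hPn, hLP, hcb, hcg⟩ := certLP H hs
  obtain ⟨P', hP'⟩ : ∃ P' : ℕ → ℝ, ∀ k, P' k = P k + d * k := ⟨_, fun _ => rfl⟩
  have hP'0 : P' 0 = 0 := by rw [hP', hP0]; simp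
  have hP'n : ∀ z, z ≤ n → 0 ≤ P' z := by
    intro z hz
    rw [hP']
    have := mul_nonneg hd0 (Nat.cast_nonneg (α := ℝ) z)
    linarith [hPn z hz]
  have hLP' : ∀ z, z ≤ n → L z + P' z ≤ s + d * n := by
    intro z hz
    rw [hP']
    have h1 : (z : ℝ) ≤ n := by exact_mod_cast hz
    have := mul_le_mul_of_nonneg_left h1 hd0
    linarith [hLP z hz]
  have hcb' : ∀ h k, h + k ≤ n → (h : ℝ) * ((fun z => b z + d) (h + k) - a h) ≤
      P' (h + k) - P' k + L h := by
    intro h k hh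
    have := hcb h k hh
    rw [hP', hP']
    push_cast
    beta_reduce
    linarith
  have hcg' : ∀ h k, h + k ≤ n → (k : ℝ) * ((fun z => b z + d) k - a (h + k)) ≤
      L (h + k) - L h + P' k := by
    intro h k hh
    have := hcg h k hh
    rw [hP']
    beta_reduce
    linarith
  -- transition for each m
  have htrans : ∀ m, m < G → ∑ q ∈ Finset.range Q, (x (F (m + 1) q) - x (F m q)) ≤
      ∑ i, psi L P' (ht (F m) i Q) (ht (F (m + 1)) i Q) := by
    intro m hm
    refine transition (n := n) (a := a) (b := fun z => b z + d) (c := p (m + 1)) hL0 hP'0 hcb' hcg'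
      (hown m (by omega)) (hown (m + 1) (by omega)) ?_ ?_ Q (le_refl _)
    · intro q hq
      have e := hA' m (by omega) q hq
      refine ⟨e.1, ?_⟩
      beta_reduce
      linarith [hd m hm, e.2.2]
    · intro q hq
      have e := hA' (m + 1) (by omega) q hq
      exact ⟨e.1, e.2.1⟩
  -- telescoping for each i
  have htele : ∀ i, ∑ m ∈ Finset.range G, psi L P' (ht (F m) i Q) (ht (F (m + 1)) i Q) ≤
      s + d * n := by
    intro i
    refine tele (n := n) hLn hP'n hLP' G (fun m => ht (F m) i Q) ?_ ?_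
    · intro m hm
      exact ht_bound (hown m hm) (fun q hq => (hA' m hm q hq).1) i
    · intro m1 m2 m3 h12 h23 hG
      refine ht_quasi (hown m1 (by omega)) (hown m3 hG) i ?_
      intro q hq e1 e3
      have o1 := hF m1 q (by omega) hq
      have o3 := hF m3 q hG hq
      rw [e1] at o1
      rw [e3] at o3
      have o2 := Cfg.own_conv hgC hpC hcovy hW h12 h23 hG hq o1 o3
      exact Cfg.own_unique (hF m2 q (by omega) hq) o2
  -- summation
  have s1 : ∑ m ∈ Finset.range G, ∑ q ∈ Finset.range Q, (x (F (m + 1) q) - x (F m q)) =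
      ∑ q ∈ Finset.range Q, (x (F G q) - x (F 0 q)) := by
    rw [Finset.sum_comm]
    apply Finset.sum_congr rfl
    intro q _
    exact Finset.sum_range_sub (fun m => x (F m q)) G
  have s2 : ∑ m ∈ Finset.range G, ∑ q ∈ Finset.range Q, (x (F (m + 1) q) - x (F m q)) ≤
      ∑ m ∈ Finset.range G, ∑ i, psi L P' (ht (F m) i Q) (ht (F (m + 1)) i Q) := by
    apply Finset.sum_le_sum
    intro m hm
    exact htrans m (Finset.mem_range.mp hm)
  have s3 : ∑ m ∈ Finset.range G, ∑ i, psi L P' (ht (F m) i Q) (ht (F (m + 1)) i Q) ≤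
      N * (s + d * n) := by
    rw [Finset.sum_comm]
    calc ∑ i, ∑ m ∈ Finset.range G, psi L P' (ht (F m) i Q) (ht (F (m + 1)) i Q)
        ≤ ∑ _i : Fin N, (s + d * n) := Finset.sum_le_sum (fun i _ => htele i)
      _ = N * (s + d * n) := by
        rw [Finset.sum_const, Finset.card_univ, Fintype.card_fin, nsmul_eq_mul]
  have s4 : (Q : ℝ) * (p G - p 0 - (b0 - a0)) ≤ ∑ q ∈ Finset.range Q, (x (F G q) - x (F 0 q)) := by
    have : ∑ _q ∈ Finset.range Q, (p G - p 0 - (b0 - a0)) = (Q : ℝ) * (p G - p 0 - (b0 - a0)) := by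
      rw [Finset.sum_const, Finset.card_range, nsmul_eq_mul]
    rw [← this]
    apply Finset.sum_le_sum
    intro q hq
    have hq' := Finset.mem_range.mp hq
    have e1 := (hF G q (le_refl _) hq').1
    have e2 := (hF 0 q (by omega) hq').1
    unfold Cfg.al at e1 e2
    rw [hC] at e1 e2
    simp only at e1 e2
    linarith [e1.2, e2.1]
  linarith

end FA14
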