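import Pool.Agent.W_fa9b59_d14.Cert2

/-!
Discrete covering theorem (MP_fa9b59_co, proofs row 542, section 3), part 1: heights of owner
functions, the transition estimate (T) and the telescoping estimate for one cell.
-/

set_option autoImplicit false

namespace FA14

open Finset

variable {N : ℕ}

/-- number of levels below `z` owned by `i` -/
def ht (f : ℕ → Fin N) (i : Fin N) (z : ℕ) : ℕ := ((Finset.range z).filter (fun q => f q = i)).card

/-- the owner property: `f q` is born at or before `q` and owns all levels between -/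
def Ownf (y : Fin N → ℕ) (Q : ℕ) (f : ℕ → Fin N) : Prop :=
  ∀ q, q < Q → y (f q) ≤ q ∧ ∀ q', y (f q) ≤ q' → q' ≤ q → f q' = f q

noncomputable def psi (L P : ℕ → ℝ) (u v : ℕ) : ℝ := if u ≤ v then L v - L u else P u - P v

variable {y : Fin N → ℕ} {Q : ℕ} {f f' : ℕ → Fin N}

theorem Ownf.ht_eq (hf : Ownf y Q f) {q z : ℕ} (hq : q < Q) (h1 : y (f q) ≤ z) (h2 : z ≤ q + 1) :
    ht f (f q) z = z - y (f q) := by
  obtain ⟨e1, e2⟩ := hf q hq
  have : (Finset.range z).filter (fun q' => f q' = f q) = Finset.Ico (y (f q)) z := by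
    ext q'
    simp only [Finset.mem_filter, Finset.mem_range, Finset.mem_Ico]
    constructor
    · rintro ⟨h3, h4⟩
      have := (hf q' (by omega)).1
      rw [h4] at this
      exact ⟨this, h3⟩
    · rintro ⟨h3, h4⟩
      exact ⟨h4, e2 q' h3 (by omega)⟩
  unfold ht
  rw [this, Nat.card_Ico]

theorem Ownf.ht_zero (hf : Ownf y Q f) {i : Fin N} {z : ℕ} (hz : z ≤ Q) (h1 : z ≤ y i) :
    ht f i z = 0 := by
  unfold ht
  rw [Finset.card_eq_zero, Finset.filter_eq_empty_iff]
  intro q hq h
  rw [Finset.mem_range] at hq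
  have := (hf q (by omega)).1
  rw [h] at this
  omega

theorem Ownf.ht_le (hf : Ownf y Q f) {i : Fin N} {z : ℕ} (hz : z ≤ Q) :
    ht f i z ≤ z - y i := by
  unfold ht
  rw [← Nat.card_Ico]
  apply Finset.card_le_card
  intro q hq
  rw [Finset.mem_filter, Finset.mem_range] at hq
  have := (hf q (by omega)).1
  rw [hq.2] at this
  rw [Finset.mem_Ico]
  exact ⟨this, hq.1⟩

theorem ht_same {i : Fin N} {z0 z : ℕ} (h0 : z0 ≤ z) (h : ∀ q, z0 ≤ q → q < z → f q ≠ i) :
    ht f i z = ht f i z0 := by
  unfold ht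
  congr 1
  ext q
  simp only [Finset.mem_filter, Finset.mem_range]
  constructor
  · rintro ⟨h1, h2⟩
    refine ⟨?_, h2⟩
    by_contra hcon
    exact h q (by omega) h1 h2
  · rintro ⟨h1, h2⟩
    exact ⟨by omega, h2⟩

/-- changing at most two terms of a sum over `Fin N` -/
theorem sum_two {F F' : Fin N → ℝ} {i j : Fin N} (hij : i ≠ j)
    (h : ∀ k, k ≠ i → k ≠ j → F' k = F k) :
    ∑ k, F' k = ∑ k, F k + (F' i - F i) + (F' j - F j) := by
  have h1 : ∑ k, (F' k - F k) = (F' i - F i) + (F' j - F j) := by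
    rw [← Finset.sum_subset (Finset.subset_univ ({i, j} : Finset (Fin N)))]
    · rw [Finset.sum_pair hij]
    · intro k _ hk
      simp only [Finset.mem_insert, Finset.mem_singleton, not_or] at hk
      rw [h k hk.1 hk.2, sub_self]
  rw [Finset.sum_sub_distrib] at h1
  linarith

/-- (T) the transition estimate -/
theorem transition {L P a b : ℕ → ℝ} {n : ℕ} {x : Fin N → ℝ} {c : ℝ}
    (hL0 : L 0 = 0) (hP0 : P 0 = 0)
    (hcb : ∀ h k, h + k ≤ n → (h : ℝ) * (b (h + k) - a h) ≤ P (h + k) - P k + L h)
    (hcg : ∀ h k, h + k ≤ n → (k : ℝ) * (b k - a (h + k)) ≤ L (h + k) - L h + P k)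
    (hf : Ownf y Q f) (hf' : Ownf y Q f')
    (h1 : ∀ q, q < Q → q + 1 - y (f q) ≤ n ∧ c - x (f q) ≤ b (q + 1 - y (f q)))
    (h2 : ∀ q, q < Q → q + 1 - y (f' q) ≤ n ∧ a (q + 1 - y (f' q)) ≤ c - x (f' q)) :
    ∀ z, z ≤ Q → ∑ q ∈ Finset.range z, (x (f' q) - x (f q)) ≤
      ∑ i, psi L P (ht f i z) (ht f' i z) := by
  intro z
  induction z using Nat.strong_induction_on with
  | _ z ih =>
  intro hz
  rcases Nat.eq_zero_or_pos z with rfl | hz0
  · simp [ht, psi]
  obtain ⟨q, rfl⟩ : ∃ q, z = q + 1 := ⟨z - 1, by omega⟩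
  have hq : q < Q := by omega
  obtain ⟨i, hi⟩ : ∃ i, i = f q := ⟨_, rfl⟩
  obtain ⟨j, hj⟩ : ∃ j, j = f' q := ⟨_, rfl⟩
  have oi := hf q hq
  have oj := hf' q hq
  have b1 := h1 q hq
  have b2 := h2 q hq
  rw [← hi] at oi b1
  rw [← hj] at oj b2
  obtain ⟨oi1, oi2⟩ := oi
  obtain ⟨oj1, oj2⟩ := oj
  -- splitting the sum
  have split : ∀ z0, z0 ≤ q + 1 → y i ≤ z0 → y j ≤ z0 →
      ∑ q' ∈ Finset.range (q + 1), (x (f' q') - x (f q')) =
      ∑ q' ∈ Finset.range z0, (x (f' q') - x (f q')) + ((q + 1 - z0 : ℕ) : ℝ) * (x j - x i) := by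
    intro z0 hz0 hzi hzj
    rw [← Finset.sum_range_add_sum_Ico _ hz0]
    congr 1
    rw [Finset.sum_congr rfl (g := fun _ => x j - x i), Finset.sum_const, Nat.card_Ico, nsmul_eq_mul]
    intro q' hq'
    rw [Finset.mem_Ico] at hq'
    rw [oi2 q' (by omega) (by omega), oj2 q' (by omega) (by omega)]
  by_cases hij : i = j
  · -- same owner
    have e1 := split (y i) (by omega) (le_refl _) (by rw [hij])
    have e2 := ih (y i) (by omega) (by omega)
    have e3 : ∑ k, psi L P (ht f k (q + 1)) (ht f' k (q + 1)) =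
        ∑ k, psi L P (ht f k (y i)) (ht f' k (y i)) := by
      apply Finset.sum_congr rfl
      intro k _
      by_cases hk : k = i
      · subst hk
        rw [hf.ht_zero (by omega) (le_refl _), hf'.ht_zero (by omega) (le_refl _)]
        have e4 : ht f k (q + 1) = q + 1 - y k := by
          have := hf.ht_eq hq (z := q + 1) (by rw [← hi]; omega) (le_refl _)
          rwa [← hi] at this
        have e5 : ht f' k (q + 1) = q + 1 - y k := by
          have := hf'.ht_eq hq (z := q + 1) (by rw [← hj, ← hij]; omega) (le_refl _)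
          rwa [← hj, ← hij] at this
        rw [e4, e5]
        simp [psi]
      · rw [ht_same (show y i ≤ q + 1 by omega), ht_same (f := f') (show y i ≤ q + 1 by omega)]
        · intro q' h3 h4 h5
          rw [oj2 q' (by rw [← hij]; exact h3) (by omega)] at h5
          exact hk (by rw [← h5, hij])
        · intro q' h3 h4 h5
          rw [oi2 q' h3 (by omega)] at h5
          exact hk h5.symm
    rw [e1, e3, hij]
    simp only [sub_self, mul_zero, add_zero]
    rw [hij] at e2
    exact e2
  -- different owners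
  have hfi : ∀ q', y i ≤ q' → q' ≤ q → f q' = i := oi2
  have hfj : ∀ q', y j ≤ q' → q' ≤ q → f' q' = j := oj2
  have others : ∀ z0, z0 ≤ q + 1 → y i ≤ z0 → y j ≤ z0 → ∀ k, k ≠ i → k ≠ j →
      psi L P (ht f k (q + 1)) (ht f' k (q + 1)) = psi L P (ht f k z0) (ht f' k z0) := by
    intro z0 hz0 hzi hzj k hki hkj
    rw [ht_same hz0, ht_same (f := f') hz0]
    · intro q' h3 h4 h5
      rw [hfj q' (by omega) (by omega)] at h5
      exact hkj h5.symm
    · intro q' h3 h4 h5
      rw [hfi q' (by omega) (by omega)] at h5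
      exact hki h5.symm
  have hti : ∀ z0, y i ≤ z0 → z0 ≤ q + 1 → ht f i z0 = z0 - y i := by
    intro z0 h3 h4
    have := hf.ht_eq hq (z := z0) (by rw [← hi]; exact h3) h4
    rwa [← hi] at this
  have htj : ∀ z0, y j ≤ z0 → z0 ≤ q + 1 → ht f' j z0 = z0 - y j := by
    intro z0 h3 h4
    have := hf'.ht_eq hq (z := z0) (by rw [← hj]; exact h3) h4
    rwa [← hj] at this
  rcases le_or_gt (y i) (y j) with hyy | hyy
  · -- y i ≤ y j : step back to z0 = y j
    have e1 := split (y j) (by omega) hyy (le_refl _)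
    have e2 := ih (y j) (by omega) (by omega)
    have e3 := sum_two hij (F := fun k => psi L P (ht f k (y j)) (ht f' k (y j)))
      (F' := fun k => psi L P (ht f k (q + 1)) (ht f' k (q + 1)))
      (others (y j) (by omega) hyy (le_refl _))
    beta_reduce at e3
    -- the term of i
    have t1 : ht f' i (q + 1) = ht f' i (y j) := by
      apply ht_same (by omega)
      intro q' h3 h4 h5
      rw [hfj q' h3 (by omega)] at h5
      exact hij h5.symm
    have t2 : ht f' i (y j) ≤ y j - y i := hf'.ht_le (by omega)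
    have t3 : psi L P (ht f i (q + 1)) (ht f' i (q + 1)) - psi L P (ht f i (y j)) (ht f' i (y j))
        = P (q + 1 - y i) - P (y j - y i) := by
      rw [t1, hti (q + 1) (by omega) (le_refl _), hti (y j) hyy (by omega)]
      generalize ht f' i (y j) = e at t2
      unfold psi
      rw [if_neg (by omega)]
      by_cases hc : y j - y i ≤ e
      · rw [if_pos hc]
        have : e = y j - y i := by omega
        rw [this]; ring
      · rw [if_neg hc]; ring
    have t4 : psi L P (ht f j (q + 1)) (ht f' j (q + 1)) - psi L P (ht f j (y j)) (ht f' j (y j))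
        = L (q + 1 - y j) := by
      have u1 : ht f j (q + 1) = ht f j (y j) := by
        apply ht_same (by omega)
        intro q' h3 h4 h5
        rw [hfi q' (by omega) (by omega)] at h5
        exact hij h5
      rw [u1, hf.ht_zero (by omega) (le_refl _), htj (q + 1) (by omega) (le_refl _),
        hf'.ht_zero (by omega) (le_refl _)]
      unfold psi
      rw [if_pos (by omega), if_pos (by omega), hL0]; ring
    have t5 := hcb (q + 1 - y j) (y j - y i) (by omega)
    rw [show q + 1 - y j + (y j - y i) = q + 1 - y i by omega] at t5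
    have t6 : (0 : ℝ) ≤ ((q + 1 - y j : ℕ) : ℝ) := Nat.cast_nonneg _
    have t7 : x j - x i ≤ b (q + 1 - y i) - a (q + 1 - y j) := by linarith [b1.2, b2.2]
    have t8 := mul_le_mul_of_nonneg_left t7 t6
    rw [e1, e3, t3, t4]
    linarith
  · -- y j < y i : step back to z0 = y i
    have e1 := split (y i) (by omega) (le_refl _) (by omega)
    have e2 := ih (y i) (by omega) (by omega)
    have e3 := sum_two hij (F := fun k => psi L P (ht f k (y i)) (ht f' k (y i)))
      (F' := fun k => psi L P (ht f k (q + 1)) (ht f' k (q + 1)))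
      (others (y i) (by omega) (le_refl _) (by omega))
    beta_reduce at e3
    have t1 : ht f j (q + 1) = ht f j (y i) := by
      apply ht_same (by omega)
      intro q' h3 h4 h5
      rw [hfi q' h3 (by omega)] at h5
      exact hij h5
    have t2 : ht f j (y i) ≤ y i - y j := hf.ht_le (by omega)
    have t3 : psi L P (ht f j (q + 1)) (ht f' j (q + 1)) - psi L P (ht f j (y i)) (ht f' j (y i))
        = L (q + 1 - y j) - L (y i - y j) := by
      rw [t1, htj (q + 1) (by omega) (le_refl _), htj (y i) (by omega) (by omega)]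
      generalize ht f j (y i) = e at t2
      unfold psi
      rw [if_pos (by omega), if_pos t2]; ring
    have t4 : psi L P (ht f i (q + 1)) (ht f' i (q + 1)) - psi L P (ht f i (y i)) (ht f' i (y i))
        = P (q + 1 - y i) := by
      have u1 : ht f' i (q + 1) = ht f' i (y i) := by
        apply ht_same (by omega)
        intro q' h3 h4 h5
        rw [hfj q' (by omega) (by omega)] at h5
        exact hij h5.symm
      rw [u1, hf'.ht_zero (by omega) (le_refl _), hti (q + 1) (by omega) (le_refl _),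
        hf.ht_zero (by omega) (le_refl _)]
      unfold psi
      rw [if_neg (by omega), if_pos (le_refl _), hP0]; ring
    have t5 := hcg (y i - y j) (q + 1 - y i) (by omega)
    rw [show y i - y j + (q + 1 - y i) = q + 1 - y j by omega] at t5
    have t6 : (0 : ℝ) ≤ ((q + 1 - y i : ℕ) : ℝ) := Nat.cast_nonneg _
    have t7 : x j - x i ≤ b (q + 1 - y i) - a (q + 1 - y j) := by linarith [b1.2, b2.2]
    have t8 := mul_le_mul_of_nonneg_left t7 t6
    rw [e1, e3, t3, t4]
    linarith

/-- (S) the telescoping estimate for a quasiconcave height function -/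
theorem tele {L P : ℕ → ℝ} {n : ℕ} {s : ℝ} (hL : ∀ z, z ≤ n → 0 ≤ L z) (hP : ∀ z, z ≤ n → 0 ≤ P z)
    (hs : ∀ z, z ≤ n → L z + P z ≤ s) (G : ℕ) (h : ℕ → ℕ) (hn : ∀ m, m ≤ G → h m ≤ n)
    (hq : ∀ m1 m2 m3, m1 ≤ m2 → m2 ≤ m3 → m3 ≤ G → min (h m1) (h m3) ≤ h m2) :
    ∑ m ∈ Finset.range G, psi L P (h m) (h (m + 1)) ≤ s := by
  obtain ⟨m0, hm0, hmax⟩ := Finset.exists_max_image (Finset.range (G + 1)) h ⟨0, by simp⟩
  rw [Finset.mem_range] at hm0
  have hmax' : ∀ m, m ≤ G → h m ≤ h m0 := fun m hm => hmax m (by rw [Finset.mem_range]; omega)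
  have up : ∀ m, m ≤ m0 → ∑ k ∈ Finset.range m, psi L P (h k) (h (k + 1)) = L (h m) - L (h 0) := by
    intro m
    induction m with
    | zero => intro _; simp
    | succ m ih =>
      intro hm
      rw [Finset.sum_range_succ, ih (by omega)]
      have e1 := hq m (m + 1) m0 (by omega) hm (by omega)
      have e2 := hmax' m (by omega)
      rw [min_eq_left e2] at e1
      unfold psi
      rw [if_pos e1]; ring
  have down : ∀ j, m0 + j ≤ G → ∑ k ∈ Finset.range (m0 + j), psi L P (h k) (h (k + 1)) =
      L (h m0) - L (h 0) + (P (h m0) - P (h (m0 + j))) := by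
    intro j
    induction j with
    | zero => intro _; rw [Nat.add_zero, up m0 (le_refl _)]; ring
    | succ j ih =>
      intro hj
      rw [← Nat.add_assoc, Finset.sum_range_succ, ih (by omega)]
      have e1 := hq m0 (m0 + j) (m0 + j + 1) (by omega) (by omega) (by omega)
      have e2 := hmax' (m0 + j + 1) (by omega)
      rw [min_eq_right e2] at e1
      unfold psi
      by_cases hc : h (m0 + j) ≤ h (m0 + j + 1)
      · have : h (m0 + j + 1) = h (m0 + j) := by omega
        rw [if_pos hc, this]; ring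
      · rw [if_neg hc]; ring
  have e := down (G - m0) (by omega)
  rw [show m0 + (G - m0) = G by omega] at e
  rw [e]
  have e1 := hL (h 0) (hn 0 (by omega))
  have e2 := hP (h G) (hn G (le_refl _))
  have e3 := hs (h m0) (hn m0 (by omega))
  linarith

end FA14
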