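import Pool.Agent.W_fa9b59_d14.Dct1

/-!
Discrete covering theorem (MP_fa9b59_co, proofs row 542, section 3), part 2: raising, owners.
-/

set_option autoImplicit false

namespace FA14

open Finset

/-- the four point inequality for concave functions -/
theorem conc4 {a0 b0 : ℝ} {g : ℝ → ℝ} (hg : ConcaveOn ℝ (Set.Icc a0 b0) g) {u' u v' v : ℝ}
    (h1 : a0 ≤ u') (h2 : u' ≤ u) (h3 : v ≤ b0) (h4 : u ≤ v) (h5 : u' + v = u + v') :
    g v + g u' ≤ g u + g v' := by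
  rcases eq_or_lt_of_le (le_trans h2 h4) with he | hlt
  · have e1 : u = u' := by linarith
    have e2 : v' = v := by linarith
    rw [e1, e2]; linarith
  · have hd : 0 < v - u' := by linarith
    have hv : v ∈ Set.Icc a0 b0 := ⟨by linarith, h3⟩
    have hu' : u' ∈ Set.Icc a0 b0 := ⟨h1, by linarith⟩
    have ht0 : 0 ≤ (u - u') / (v - u') := div_nonneg (by linarith) hd.le
    have ht1 : (u - u') / (v - u') ≤ 1 := by rw [div_le_one hd]; linarith
    obtain ⟨t, ht⟩ : ∃ t, t = (u - u') / (v - u') := ⟨_, rfl⟩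
    rw [← ht] at ht0 ht1
    have htm : t * (v - u') = u - u' := by rw [ht]; field_simp
    have c1 := hg.2 hu' hv (show 0 ≤ 1 - t by linarith) ht0 (by ring)
    have c2 := hg.2 hu' hv ht0 (show 0 ≤ 1 - t by linarith) (by ring)
    simp only [smul_eq_mul] at c1 c2
    have e1 : (1 - t) * u' + t * v = u := by linarith
    have e2 : t * u' + (1 - t) * v = v' := by linarith
    rw [e1] at c1
    rw [e2] at c2
    linarith

structure Cfg (N : ℕ) where
  a0 : ℝ
  b0 : ℝ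
  g : ℝ → ℝ
  p : ℕ → ℝ
  x : Fin N → ℝ

variable {N : ℕ} (C : Cfg N)

/-- translate `i` meets the vertical line number `m` -/
def Cfg.al (m : ℕ) (i : Fin N) : Prop := C.a0 ≤ C.p m - C.x i ∧ C.p m - C.x i ≤ C.b0

def Cfg.top (y : Fin N → ℕ) (m : ℕ) (i : Fin N) : ℝ := (y i : ℝ) + C.g (C.p m - C.x i)

def Cfg.cv (y : Fin N → ℕ) (m q : ℕ) (i : Fin N) : Prop :=
  C.al m i ∧ y i ≤ q ∧ (q : ℝ) ≤ C.top y m i

def Cfg.beats (y : Fin N → ℕ) (m : ℕ) (i j : Fin N) : Prop :=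
  C.top y m j < C.top y m i ∨
    (C.top y m j = C.top y m i ∧ (y i < y j ∨ (y i = y j ∧ i ≤ j)))

def Cfg.own (y : Fin N → ℕ) (m q : ℕ) (i : Fin N) : Prop :=
  C.al m i ∧ y i ≤ q ∧ ∀ j, C.al m j → y j ≤ q → C.beats y m i j

variable {C} {y : Fin N → ℕ}

theorem Cfg.own_unique {m q : ℕ} {i j : Fin N} (hi : C.own y m q i) (hj : C.own y m q j) :
    i = j := by
  obtain ⟨i1, i2, i3⟩ := hi
  obtain ⟨j1, j2, j3⟩ := hj
  rcases i3 j j1 j2 with h | ⟨h, h'⟩
  · rcases j3 i i1 i2 with k | ⟨k, k'⟩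
    · exact absurd h (not_lt.mpr k.le)
    · rw [k] at h; exact absurd h (lt_irrefl _)
  · rcases j3 i i1 i2 with k | ⟨k, k'⟩
    · rw [h] at k; exact absurd k (lt_irrefl _)
    · rcases h' with h' | ⟨h1, h2⟩
      · rcases k' with k' | ⟨k1, k2⟩
        · omega
        · omega
      · rcases k' with k' | ⟨k1, k2⟩
        · omega
        · exact le_antisymm h2 k2

theorem Cfg.own_exists {m q : ℕ} {i : Fin N} (h1 : C.al m i) (h2 : y i ≤ q) :
    ∃ j, C.own y m q j := by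
  classical
  let key : Fin N → ℝ ×ₗ (ℕᵒᵈ ×ₗ (Fin N)ᵒᵈ) := fun j =>
    toLex (C.top y m j, toLex (OrderDual.toDual (y j), OrderDual.toDual j))
  obtain ⟨j, hj, hmax⟩ := Finset.exists_max_image
    (Finset.univ.filter (fun j => C.al m j ∧ y j ≤ q)) key ⟨i, by simp [h1, h2]⟩
  rw [Finset.mem_filter] at hj
  refine ⟨j, hj.2.1, hj.2.2, fun k k1 k2 => ?_⟩
  have hk := hmax k (by rw [Finset.mem_filter]; exact ⟨Finset.mem_univ _, k1, k2⟩)
  simp only [key] at hk
  rw [Prod.Lex.toLex_le_toLex] at hk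
  rcases hk with hk | ⟨hk, hk'⟩
  · exact Or.inl hk
  · refine Or.inr ⟨hk, ?_⟩
    rw [Prod.Lex.toLex_le_toLex] at hk'
    rcases hk' with hk' | ⟨hk', hk''⟩
    · left; exact OrderDual.toDual_lt_toDual.mp hk'
    · right
      exact ⟨(OrderDual.toDual.injective hk').symm, OrderDual.toDual_le_toDual.mp hk''⟩

theorem Cfg.own.mono {m q q' : ℕ} {i : Fin N} (hi : C.own y m q i) (h1 : y i ≤ q') (h2 : q' ≤ q) :
    C.own y m q' i :=
  ⟨hi.1, h1, fun j j1 j2 => hi.2.2 j j1 (by omega)⟩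

theorem Cfg.own.cv {m q : ℕ} {i j : Fin N} (hi : C.own y m q i) (hj : C.cv y m q j) :
    C.cv y m q i := by
  refine ⟨hi.1, hi.2.1, ?_⟩
  rcases hi.2.2 j hj.1 hj.2.1 with h | ⟨h, -⟩
  · exact le_trans hj.2.2 h.le
  · exact le_trans hj.2.2 h.le

theorem Cfg.al_conv (hp : Monotone C.p) {m1 m2 m3 : ℕ} {i : Fin N} (h12 : m1 ≤ m2) (h23 : m2 ≤ m3)
    (h1 : C.al m1 i) (h3 : C.al m3 i) : C.al m2 i := by
  have e1 := hp h12
  have e2 := hp h23
  exact ⟨by linarith [h1.1], by linarith [h3.2]⟩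

theorem Cfg.cv_conv (hg : ConcaveOn ℝ (Set.Icc C.a0 C.b0) C.g) (hp : Monotone C.p)
    {m1 m2 m3 q : ℕ} {i : Fin N} (h12 : m1 ≤ m2) (h23 : m2 ≤ m3)
    (h1 : C.cv y m1 q i) (h3 : C.cv y m3 q i) : C.cv y m2 q i := by
  have ha := Cfg.al_conv hp h12 h23 h1.1 h3.1
  refine ⟨ha, h1.2.1, ?_⟩
  have e1 := hp h12
  have e2 := hp h23
  have hconv := hg.1
  have hmem : C.p m2 - C.x i ∈ segment ℝ (C.p m1 - C.x i) (C.p m3 - C.x i) := by
    rw [segment_eq_Icc (by linarith)]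
    exact ⟨by linarith, by linarith⟩
  have hmin := hg.ge_on_segment ⟨h1.1.1, h1.1.2⟩ ⟨h3.1.1, h3.1.2⟩ hmem
  have f1 := h1.2.2
  have f3 := h3.2.2
  unfold Cfg.top at f1 f3 ⊢
  rcases min_le_iff.mp hmin with h | h
  · linarith
  · linarith

/-- (I): the set of lines on which `i` owns its base level is an interval -/
theorem Cfg.own_base (hg : ConcaveOn ℝ (Set.Icc C.a0 C.b0) C.g) (hp : Monotone C.p)
    {m1 m2 m3 : ℕ} {i : Fin N} (h12 : m1 ≤ m2) (h23 : m2 ≤ m3)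
    (h1 : C.own y m1 (y i) i) (h3 : C.own y m3 (y i) i) : C.own y m2 (y i) i := by
  have ha := Cfg.al_conv hp h12 h23 h1.1 h3.1
  refine ⟨ha, le_refl _, fun j j1 j2 => ?_⟩
  have e1 := hp h12
  have e2 := hp h23
  rcases le_total (C.x j) (C.x i) with hx | hx
  · -- j is alive on m1
    have hj : C.al m1 j := ⟨by linarith [h1.1.1], by linarith [j1.2]⟩
    have hc := conc4 hg (u' := C.p m1 - C.x i) (u := C.p m1 - C.x j) (v' := C.p m2 - C.x i)
      (v := C.p m2 - C.x j) h1.1.1 (by linarith) j1.2 (by linarith) (by ring)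
    have hb := h1.2.2 j hj j2
    unfold Cfg.beats Cfg.top at hb ⊢
    rcases hb with hb | ⟨hb, hb'⟩
    · left; linarith
    · rcases eq_or_lt_of_le (show (y j : ℝ) + C.g (C.p m2 - C.x j) ≤ y i + C.g (C.p m2 - C.x i) by
        linarith) with he | hl
      · exact Or.inr ⟨he, hb'⟩
      · exact Or.inl hl
  · have hj : C.al m3 j := ⟨by linarith [j1.1], by linarith [h3.1.2]⟩
    have hc := conc4 hg (u' := C.p m2 - C.x j) (u := C.p m2 - C.x i) (v' := C.p m3 - C.x j)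
      (v := C.p m3 - C.x i) j1.1 (by linarith) h3.1.2 (by linarith) (by ring)
    have hb := h3.2.2 j hj j2
    unfold Cfg.beats Cfg.top at hb ⊢
    rcases hb with hb | ⟨hb, hb'⟩
    · left; linarith
    · rcases eq_or_lt_of_le (show (y j : ℝ) + C.g (C.p m2 - C.x j) ≤ y i + C.g (C.p m2 - C.x i) by
        linarith) with he | hl
      · exact Or.inr ⟨he, hb'⟩
      · exact Or.inl hl

/-- (U): the owner regions are column-convex -/
theorem Cfg.own_conv (hg : ConcaveOn ℝ (Set.Icc C.a0 C.b0) C.g) (hp : Monotone C.p) {G Q : ℕ}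
    (hcov : ∀ m, m ≤ G → ∀ q, q < Q → ∃ i, C.cv y m q i)
    (hW : ∀ j, y j < Q → ∃ w, w ≤ G ∧ C.cv y w (y j) j ∧ ∀ i, C.cv y w (y j) i → i = j)
    {m1 m2 m3 q : ℕ} {i : Fin N} (h12 : m1 ≤ m2) (h23 : m2 ≤ m3) (hG : m3 ≤ G) (hQ : q < Q)
    (h1 : C.own y m1 q i) (h3 : C.own y m3 q i) : C.own y m2 q i := by
  obtain ⟨i0, hi0⟩ := hcov m2 (by omega) q hQ
  obtain ⟨j, hj⟩ := Cfg.own_exists (C := C) (y := y) hi0.1 hi0.2.1
  have hbase : C.own y m2 (y i) i :=
    Cfg.own_base hg hp h12 h23 (h1.mono (le_refl _) h1.2.1) (h3.mono (le_refl _) h3.2.1)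
  by_cases hij : i = j
  · rw [hij]; exact hj
  exfalso
  have hyj : y i < y j := by
    by_contra hcon
    push Not at hcon
    exact hij (Cfg.own_unique hbase (hj.mono hcon h1.2.1))
  have hjb : C.own y m2 (y j) j := hj.mono (le_refl _) hj.2.1
  have g1 : C.own y m1 (y j) i := h1.mono hyj.le hj.2.1
  have g3 : C.own y m3 (y j) i := h3.mono hyj.le hj.2.1
  obtain ⟨w, hwG, hw1, hw2⟩ := hW j (by have := hj.2.1; omega)
  have hwo : C.own y w (y j) j := by
    obtain ⟨k, hk⟩ := Cfg.own_exists (C := C) (y := y) hw1.1 hw1.2.1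
    have := hw2 k (hk.cv hw1)
    rw [this] at hk
    exact hk
  have hw_1 : m1 ≤ w := by
    by_contra hcon
    push Not at hcon
    have := Cfg.own_base hg hp (m1 := w) (m2 := m1) (m3 := m2) (by omega) h12 hwo hjb
    exact hij (Cfg.own_unique g1 this)
  have hw_3 : w ≤ m3 := by
    by_contra hcon
    push Not at hcon
    have := Cfg.own_base hg hp (m1 := m2) (m2 := m3) (m3 := w) h23 (by omega) hjb hwo
    exact hij (Cfg.own_unique g3 this)
  obtain ⟨k1, hk1⟩ := hcov m1 (by omega) (y j) (by have := hj.2.1; omega)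
  obtain ⟨k3, hk3⟩ := hcov m3 (by omega) (y j) (by have := hj.2.1; omega)
  have := Cfg.cv_conv hg hp hw_1 hw_3 (g1.cv hk1) (g3.cv hk3)
  exact hij (hw2 i this)

/-- (R) raising -/
theorem Cfg.raise {G Q : ℕ} (hcov : ∀ m, m ≤ G → ∀ q, q < Q → ∃ i, C.cv y m q i) :
    ∃ y' : Fin N → ℕ, (∀ m, m ≤ G → ∀ q, q < Q → ∃ i, C.cv y' m q i) ∧
      (∀ j, y' j < Q → ∃ w, w ≤ G ∧ C.cv y' w (y' j) j ∧ ∀ i, C.cv y' w (y' j) i → i = j) := by
  classical
  -- the finite set of covering vectors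
  let S : Finset (Fin N → Fin (Q + 1)) := Finset.univ.filter
    (fun z => ∀ m, m ≤ G → ∀ q, q < Q → ∃ i, C.cv (fun i => (z i : ℕ)) m q i)
  have hS : S.Nonempty := by
    refine ⟨fun i => ⟨min (y i) Q, by omega⟩, ?_⟩
    simp only [S, Finset.mem_filter, Finset.mem_univ, true_and]
    intro m hm q hq
    obtain ⟨i, h1, h2, h3⟩ := hcov m hm q hq
    have e : min (y i) Q = y i := by omega
    refine ⟨i, h1, ?_, ?_⟩
    · show min (y i) Q ≤ q
      omega
    · unfold Cfg.top at h3 ⊢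
      show (q : ℝ) ≤ ((min (y i) Q : ℕ) : ℝ) + C.g (C.p m - C.x i)
      rw [e]; exact h3
  obtain ⟨z, hz, hmax⟩ := Finset.exists_max_image S (fun z => ∑ i, (z i : ℕ)) hS
  simp only [S, Finset.mem_filter, Finset.mem_univ, true_and] at hz hmax
  refine ⟨fun i => (z i : ℕ), hz, fun j hj => ?_⟩
  -- raise z j by one
  let z' : Fin N → Fin (Q + 1) := Function.update z j ⟨(z j : ℕ) + 1, by
    have : (z j : ℕ) < Q := hj
    omega⟩
  have hz'j : (z' j : ℕ) = (z j : ℕ) + 1 := by simp [z']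
  have hz'o : ∀ i, i ≠ j → z' i = z i := fun i hi => by simp [z', hi]
  have hnot : ¬ ∀ m, m ≤ G → ∀ q, q < Q → ∃ i, C.cv (fun i => (z' i : ℕ)) m q i := by
    intro hcon
    have h1 := hmax z' hcon
    have h2 : ∑ i, (z i : ℕ) < ∑ i, (z' i : ℕ) := by
      apply Finset.sum_lt_sum
      · intro i _
        by_cases hi : i = j
        · rw [hi, hz'j]; omega
        · rw [hz'o i hi]
      · exact ⟨j, Finset.mem_univ _, by rw [hz'j]; omega⟩
    omega
  push Not at hnot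
  obtain ⟨w, hw, q, hq, hno⟩ := hnot
  have hoth : ∀ i, C.cv (fun i => (z i : ℕ)) w q i → i = j := by
    intro i hi
    by_contra hij
    apply hno i
    obtain ⟨h1, h2, h3⟩ := hi
    refine ⟨h1, ?_, ?_⟩
    · show (z' i : ℕ) ≤ q
      rw [hz'o i hij]; exact h2
    · unfold Cfg.top at h3 ⊢
      show (q : ℝ) ≤ ((z' i : ℕ) : ℝ) + C.g (C.p w - C.x i)
      rw [hz'o i hij]; exact h3
  obtain ⟨i, hi⟩ := hz w hw q hq
  have hij := hoth i hi
  rw [hij] at hi
  have hqj : q = (z j : ℕ) := by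
    obtain ⟨h1, h2, h3⟩ := hi
    by_contra hne
    apply hno j
    beta_reduce at h2
    refine ⟨h1, ?_, ?_⟩
    · show (z' j : ℕ) ≤ q
      rw [hz'j]; omega
    · unfold Cfg.top at h3 ⊢
      show (q : ℝ) ≤ ((z' j : ℕ) : ℝ) + C.g (C.p w - C.x j)
      rw [hz'j]
      push_cast
      beta_reduce at h3
      linarith
  refine ⟨w, hw, ?_, ?_⟩
  · beta_reduce; rw [← hqj]; exact hi
  · intro k hk
    beta_reduce at hk
    rw [← hqj] at hk
    exact hoth k hk

end FA14
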